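import Pool.Agent.Y150.IX.Defs

/-!
# The intersection form on surfaces in fourfolds (helper150)
-/

set_option autoImplicit false

namespace Pool.Agent.Y150.UF

open Pool.Agent.Y150.IX (IsAdd Biadd)

/-- The groups of divisor classes `N` and of classes of cycles of codimension two `A`, with rational
coefficients and modulo numerical equivalence, of a smooth projective fourfold over an algebraically
closed field, with the intersection product `N × N → A`, the intersection numbers `A × A → ℚ`, the
set of the ample divisor classes and the set of the nef and big divisor classes. -/
structure Fourfold where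
  /-- the divisor classes -/
  N : Type
  /-- the classes of cycles of codimension two -/
  A : Type
  [addN : AddCommGroup N]
  [addA : AddCommGroup A]
  [modN : Module ℚ N]
  [modA : Module ℚ A]
  /-- the intersection product of divisors -/
  mul : N → N → A
  /-- the intersection numbers -/
  deg : A → A → ℚ
  /-- the ample classes -/
  ample : Set N
  /-- the nef and big classes -/
  big : Set N
  finN : Module.Finite ℚ N
  finA : Module.Finite ℚ A
  biadd_mul : Biadd mul
  biadd_deg : Biadd deg
  mul_comm : ∀ D E, mul D E = mul E D
  deg_comm : ∀ x y, deg x y = deg y x
  deg_mul : ∀ D E F G, deg (mul D E) (mul F G) = deg (mul D F) (mul E G)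
  nonempty : ample.Nonempty
  ample_sub : ample ⊆ big
  /-- intersection numbers of nef and big classes are positive -/
  pos : ∀ M ∈ big, ∀ H ∈ big, 0 < deg (mul M M) (mul H H)
  /-- Hodge index theorem for divisors -/
  index : ∀ M ∈ big, ∀ D, deg (mul M M) (mul M D) = 0 → deg (mul M M) (mul D D) ≤ 0
  /-- Hodge index theorem for divisors -/
  strict : ∀ H ∈ ample, ∀ D, D ≠ 0 → deg (mul H H) (mul H D) = 0 →
    deg (mul H H) (mul D D) < 0

attribute [instance] Fourfold.addN Fourfold.addA Fourfold.modN Fourfold.modA

/-- The standard conjecture of Hodge type for the fourfold `X`, the class `L` and cycles of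
codimension two modulo numerical equivalence: the intersection form is positive definite on the
classes `x` with `L x` numerically trivial. -/
def Fourfold.Hodge (X : Fourfold) (L : X.N) : Prop :=
  ∀ x, x ≠ 0 → (∀ D, X.deg x (X.mul L D) = 0) → 0 < X.deg x x

/-- `X` is a projective line bundle over a threefold `W`: with the class `ξ` of the tautological
bundle, `N(X) = ℚ ξ + D` and `A(X) = ξ D + C`, where `D` and `C` are the groups of divisor classes
and of classes of curves on `W` modulo numerical equivalence, `pair` is their intersection product,
and `form` is `(d, e) ↦ c_1 d e`, `c_1` the first Chern class of the bundle of rank two. -/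
structure Bundle (X : Fourfold) where
  /-- the divisor classes on the threefold -/
  D : Type
  /-- the classes of curves on the threefold -/
  C : Type
  [addD : AddCommGroup D]
  [addC : AddCommGroup C]
  [modD : Module ℚ D]
  [modC : Module ℚ C]
  /-- the intersection numbers of divisors and curves on the threefold -/
  pair : D → C → ℚ
  /-- the intersection numbers of two divisors and the first Chern class of the bundle -/
  form : D → D → ℚ
  /-- the decomposition of the divisor classes -/
  eN : X.N → ℚ × D
  /-- the decomposition of the classes of codimension two: `ξ d + c` goes to `(d, c)` -/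
  eA : X.A → D × C
  finD : Module.Finite ℚ D
  finC : Module.Finite ℚ C
  biadd_pair : Biadd pair
  biadd_form : Biadd form
  left : ∀ d, (∀ c, pair d c = 0) → d = 0
  right : ∀ c, (∀ d, pair d c = 0) → c = 0
  add_eN : IsAdd eN
  add_eA : IsAdd eA
  bij_eN : Function.Bijective eN
  bij_eA : Function.Bijective eA
  deg : ∀ x y, X.deg x y =
    pair (eA x).1 (eA y).2 + pair (eA y).1 (eA x).2 + form (eA x).1 (eA y).1

attribute [instance] Bundle.addD Bundle.addC Bundle.modD Bundle.modC

/-- `X'` is the blow-up of the fourfold `X` in a smooth irreducible centre `S` of codimension at
least two: `N(X')` is the sum of `N(X)` and the multiples of the class of the exceptional divisor,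
and `A(X')` is the orthogonal sum of `A(X)` and a group `B`. If `S` is a surface, then `B = N(S)`
with the negative of the intersection form and `h` is an ample class (Hodge index theorem); if `S` is
a curve, then `B` is of rank two and the form is indefinite; if `S` is a point, then `B` is of rank
one and the form is negative. -/
structure BlowUp (X X' : Fourfold) where
  /-- the new classes of codimension two -/
  B : Type
  [addB : AddCommGroup B]
  [modB : Module ℚ B]
  /-- the intersection form on the new classes -/
  form : B → B → ℚ
  /-- a class with positive definite orthogonal complement -/
  h : B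
  /-- the decomposition of the divisor classes -/
  eN : X'.N → X.N × ℚ
  /-- the decomposition of the classes of codimension two -/
  eA : X'.A → X.A × B
  biadd_form : Biadd form
  add_eN : IsAdd eN
  add_eA : IsAdd eA
  bij_eN : Function.Bijective eN
  bij_eA : Function.Bijective eA
  pos : ∀ b, b ≠ 0 → form b h = 0 → 0 < form b b
  deg : ∀ x y, X'.deg x y = X.deg (eA x).1 (eA y).1 + form (eA x).2 (eA y).2

attribute [instance] BlowUp.addB BlowUp.modB

/-- A generically finite surjective morphism `f : X → X'` of fourfolds: inverse and direct images
and the degree. -/
structure Dominates (X X' : Fourfold) where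
  /-- inverse images of divisor classes -/
  pullN : X'.N → X.N
  /-- inverse images in codimension two -/
  pullA : X'.A → X.A
  /-- direct images of divisor classes -/
  pushN : X.N → X'.N
  /-- direct images in codimension two -/
  pushA : X.A → X'.A
  /-- the degree -/
  degree : ℚ
  degree_pos : 0 < degree
  add_pushA : IsAdd pushA
  push_pull : ∀ x, pushA (pullA x) = degree • x
  proj : ∀ x y, X.deg (pullA x) y = X'.deg x (pushA y)
  push_mul : ∀ D E, pushA (X.mul (pullN D) E) = X'.mul D (pushN E)
  big : ∀ L ∈ X'.ample, pullN L ∈ X.big
  /-- a divisor class `D` with `f^* L D` numerically trivial is a combination of divisors whose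
  images are points, so that `D f^* x` is numerically trivial for all `x` of codimension two -/
  contract : ∀ L ∈ X'.ample, ∀ D, X.mul (pullN L) D = 0 →
    ∀ E x, X.deg (X.mul D E) (pullA x) = 0

/-- The class of fourfolds generated by the fourfolds for which the standard conjecture of Hodge
type is known for one ample class, by the projective line bundles over arbitrary threefolds, by
blow-ups in smooth centres, and by generically finite images. -/
inductive Generated : Fourfold → Prop
  | known (X : Fourfold) (L : X.N) : L ∈ X.ample → X.Hodge L → Generated X
  | bundle (X : Fourfold) : Bundle X → Generated X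
  | blowUp (X X' : Fourfold) : BlowUp X X' → Generated X → Generated X'
  | image (X X' : Fourfold) : Dominates X X' → Generated X → Generated X'

end Pool.Agent.Y150.UF
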