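import Pool.Agent.Y150.UF.Defs
import Pool.Agent.Y150.IX.Main

/-!
# The standard conjecture of Hodge type for uniruled fourfolds (helper150)
-/

set_option autoImplicit false

namespace Pool.Agent.Y150.UF

open Module Pool.Agent.Y150.IX

/-- The index property. -/
def Good (X : Fourfold) : Prop :=
  ∃ (V : Type) (_ : AddCommGroup V) (_ : Module ℚ V) (ψ : X.A →ₗ[ℚ] V), Module.Finite ℚ V ∧
    (∀ g, ψ g = 0 → g ≠ 0 → 0 < X.deg g g) ∧ finrank ℚ V + 1 ≤ finrank ℚ X.N

section forms

variable (X : Fourfold)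

lemma addL (x y z : X.A) : X.deg (x + y) z = X.deg x z + X.deg y z := X.biadd_deg.2 z x y

lemma addR (x y z : X.A) : X.deg x (y + z) = X.deg x y + X.deg x z := X.biadd_deg.1 x y z

lemma smulL (c : ℚ) (x z : X.A) : X.deg (c • x) z = c * X.deg x z :=
  (X.biadd_deg.2 z).map_smul c x

lemma smulR (c : ℚ) (x z : X.A) : X.deg x (c • z) = c * X.deg x z :=
  (X.biadd_deg.1 x).map_smul c z

lemma mul_addR (D E F : X.N) : X.mul D (E + F) = X.mul D E + X.mul D F := X.biadd_mul.1 D E F

lemma mul_smulR (c : ℚ) (D E : X.N) : X.mul D (c • E) = c • X.mul D E :=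
  (X.biadd_mul.1 D).map_smul c E

lemma mul_addL (D E F : X.N) : X.mul (D + E) F = X.mul D F + X.mul E F := X.biadd_mul.2 F D E

lemma mul_smulL (c : ℚ) (D E : X.N) : X.mul (c • D) E = c • X.mul D E :=
  (X.biadd_mul.2 E).map_smul c D

lemma deg_zeroL (x : X.A) : X.deg 0 x = 0 := (X.biadd_deg.2 x).map_zero

/-- The functional `D ↦ M^3 D`. -/
def func (M : X.N) : X.N →ₗ[ℚ] ℚ :=
  (X.biadd_deg.1 (X.mul M M)).lin ∘ₗ (X.biadd_mul.1 M).lin

lemma func_apply (M D : X.N) : func X M D = X.deg (X.mul M M) (X.mul M D) := rfl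

lemma finrank_ker_func (M : X.N) : finrank ℚ X.N ≤ finrank ℚ (LinearMap.ker (func X M)) + 1 := by
  have := X.finN
  have h1 := LinearMap.finrank_range_add_finrank_ker (func X M)
  have h2 : finrank ℚ (LinearMap.range (func X M)) ≤ 1 := by
    have := Submodule.finrank_le (LinearMap.range (func X M))
    rwa [finrank_self] at this
  omega

end forms

/-- Knowledge for one ample class gives the index property. -/
lemma good_known {X : Fourfold} {L : X.N} (hL : L ∈ X.ample) (h : X.Hodge L) : Good X := by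
  have := X.finN
  have hpos := X.pos L (X.ample_sub hL) L (X.ample_sub hL)
  let U := LinearMap.ker (func X L)
  let ψ' : X.A →ₗ[ℚ] (Dual ℚ U) :=
    { toFun := fun x => ((X.biadd_deg.1 x).lin ∘ₗ (X.biadd_mul.1 L).lin) ∘ₗ U.subtype
      map_add' := by
        intro x y
        ext D
        exact addL X x y _
      map_smul' := by
        intro c x
        ext D
        exact smulL X c x _ }
  have hψ' : ∀ x (D : U), ψ' x D = X.deg x (X.mul L D) := fun x D => rfl
  refine ⟨Dual ℚ U, inferInstance, inferInstance, ψ', inferInstance, ?_, ?_⟩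
  · intro x hx hx0
    have h1 : ∀ D, X.deg (X.mul L L) (X.mul L D) = 0 → X.deg x (X.mul L D) = 0 := by
      intro D hD
      rw [← hψ' x ⟨D, hD⟩, hx]
      rfl
    let c := X.deg x (X.mul L L) / X.deg (X.mul L L) (X.mul L L)
    have hc : X.deg x (X.mul L L) = c * X.deg (X.mul L L) (X.mul L L) := by
      rw [div_mul_cancel₀ _ hpos.ne']
    let x0 := x + (-c) • X.mul L L
    have hx0L : X.deg x0 (X.mul L L) = 0 := by
      rw [addL, smulL, hc]
      ring
    have hx00 : ∀ D, X.deg x0 (X.mul L D) = 0 := by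
      intro D
      let a := X.deg (X.mul L L) (X.mul L D) / X.deg (X.mul L L) (X.mul L L)
      have ha : X.deg (X.mul L L) (X.mul L D) = a * X.deg (X.mul L L) (X.mul L L) := by
        rw [div_mul_cancel₀ _ hpos.ne']
      have hD0 : X.deg (X.mul L L) (X.mul L (D + (-a) • L)) = 0 := by
        rw [mul_addR, mul_smulR, addR, smulR, ha]
        ring
      have h2 := h1 _ hD0
      have h3 : X.deg x0 (X.mul L (D + (-a) • L)) = 0 := by
        rw [addL, smulL, h2, hD0]
        ring
      rw [mul_addR, mul_smulR, addR, smulR, hx0L] at h3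
      linarith
    have hxx : x = x0 + c • X.mul L L := by
      simp only [x0, neg_smul]
      abel
    have e : X.deg x x = X.deg x0 x0 + c ^ 2 * X.deg (X.mul L L) (X.mul L L) := by
      rw [hxx]
      simp only [addL, addR, smulL, smulR, hx0L, X.deg_comm (X.mul L L) x0]
      ring
    by_cases h0 : x0 = 0
    · have hc0 : c ≠ 0 := by
        rintro hc0
        apply hx0
        rw [hxx, h0, hc0, zero_smul, add_zero]
      rw [e, h0, deg_zeroL, zero_add]
      have := sq_pos_of_ne_zero hc0
      positivity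
    · have h4 := h x0 h0 hx00
      rw [e]
      have := sq_nonneg c
      positivity
  · rw [Subspace.dual_finrank_eq]
    have hne : func X L ≠ 0 := by
      intro h0
      have := LinearMap.congr_fun h0 L
      rw [func_apply] at this
      exact hpos.ne' this
    have h1 := LinearMap.finrank_range_add_finrank_ker (func X L)
    have h2 : 0 < finrank ℚ (LinearMap.range (func X L)) := by
      rw [Nat.pos_iff_ne_zero]
      intro h0
      rw [Submodule.finrank_eq_zero, LinearMap.range_eq_bot] at h0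
      exact hne h0
    change finrank ℚ (LinearMap.ker (func X L)) + 1 ≤ _
    omega

/-- Projective line bundles. -/
lemma good_bundle {X : Fourfold} (e : Bundle X) : Good X := by
  have := e.finD
  have := e.finC
  let P : e.C →ₗ[ℚ] Dual ℚ e.D :=
    { toFun := fun c => (e.biadd_pair.2 c).lin
      map_add' := by
        intro c c'
        ext d
        exact e.biadd_pair.1 d c c'
      map_smul' := by
        intro a c
        ext d
        exact (e.biadd_pair.1 d).map_smul a c }
  have hP : ∀ c d, P c d = e.pair d c := fun c d => rfl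
  let P' : e.D →ₗ[ℚ] Dual ℚ e.C :=
    { toFun := fun d => (e.biadd_pair.1 d).lin
      map_add' := by
        intro c c'
        ext d
        exact e.biadd_pair.2 d c c'
      map_smul' := by
        intro a c
        ext d
        exact (e.biadd_pair.2 d).map_smul a c }
  have hP' : ∀ d c, P' d c = e.pair d c := fun c d => rfl
  have hPi : Function.Injective P := by
    rw [injective_iff_map_eq_zero]
    intro c hc
    exact e.right c fun d => by rw [← hP, hc]; rfl
  have hPi' : Function.Injective P' := by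
    rw [injective_iff_map_eq_zero]
    intro c hc
    exact e.left c fun d => by rw [← hP', hc]; rfl
  have hf1 : finrank ℚ e.C ≤ finrank ℚ e.D := by
    have := LinearMap.finrank_le_finrank_of_injective hPi
    rwa [Subspace.dual_finrank_eq] at this
  have hf2 : finrank ℚ e.D ≤ finrank ℚ e.C := by
    have := LinearMap.finrank_le_finrank_of_injective hPi'
    rwa [Subspace.dual_finrank_eq] at this
  have hPs : Function.Surjective P := by
    rw [← LinearMap.injective_iff_surjective_of_finrank_eq_finrank]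
    · exact hPi
    · rw [Subspace.dual_finrank_eq]
      omega
  let Pe : e.C ≃ₗ[ℚ] Dual ℚ e.D := LinearEquiv.ofBijective P ⟨hPi, hPs⟩
  let b := finBasis ℚ e.D
  let T : e.D →ₗ[ℚ] Dual ℚ e.D :=
    { toFun := fun d => (∑ i, (b.repr d i) • b.coord i) - (1 / 2 : ℚ) • (e.biadd_form.1 d).lin
      map_add' := by
        intro d d'
        ext x
        simp only [LinearMap.sub_apply, LinearMap.add_apply, LinearMap.smul_apply,
          LinearMap.sum_apply, IsAdd.lin_apply, map_add, Finsupp.add_apply, add_smul,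
          Finset.sum_add_distrib, smul_eq_mul]
        rw [show e.form (d + d') x = e.form d x + e.form d' x from e.biadd_form.2 x d d']
        ring
      map_smul' := by
        intro a d
        ext x
        simp only [LinearMap.sub_apply, LinearMap.smul_apply, LinearMap.sum_apply,
          IsAdd.lin_apply, map_smul, Finsupp.smul_apply, smul_eq_mul, RingHom.id_apply]
        rw [show e.form (a • d) x = a * e.form d x from (e.biadd_form.2 x).map_smul a d,
          mul_sub, Finset.mul_sum]
        congr 1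
        · exact Finset.sum_congr rfl fun i _ => by ring
        · ring }
  let φ : e.D →ₗ[ℚ] e.C := Pe.symm.toLinearMap ∘ₗ T
  have hφ : ∀ d, e.pair d (φ d) = ∑ i, (b.repr d i) ^ 2 - 1 / 2 * e.form d d := by
    intro d
    have h1 : P (φ d) = T d := Pe.apply_symm_apply (T d)
    rw [← hP, h1]
    change (∑ i, (b.repr d i) • b.coord i) d - (1 / 2 : ℚ) • e.form d d = _
    rw [LinearMap.sum_apply]
    simp only [LinearMap.smul_apply, Basis.coord_apply, smul_eq_mul, pow_two]
  have h2 : ∀ d, d ≠ 0 → 0 < e.pair d (φ d) + e.pair d (φ d) + e.form d d := by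
    intro d hd
    rw [hφ]
    have h3 : ∃ i, b.repr d i ≠ 0 := by
      by_contra hn
      push Not at hn
      apply hd
      apply b.repr.injective
      ext i
      rw [hn i, map_zero]
      rfl
    obtain ⟨i, hi⟩ := h3
    have h4 : 0 < ∑ i, (b.repr d i) ^ 2 :=
      Finset.sum_pos' (fun _ _ => sq_nonneg _) ⟨i, Finset.mem_univ i, sq_pos_of_ne_zero hi⟩
    linarith
  let eA := e.add_eA.lin
  refine ⟨e.C, inferInstance, inferInstance,
    (LinearMap.snd ℚ e.D e.C - φ ∘ₗ LinearMap.fst ℚ e.D e.C) ∘ₗ eA, inferInstance, ?_, ?_⟩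
  · intro x hx hx0
    have h3 : (e.eA x).2 = φ (e.eA x).1 := sub_eq_zero.1 hx
    rw [e.deg, h3]
    apply h2
    intro h4
    apply hx0
    apply e.bij_eA.1
    rw [e.add_eA.map_zero]
    refine Prod.ext h4 ?_
    rw [h3, h4, map_zero]
    rfl
  · have h3 := (e.add_eN.equiv e.bij_eN).finrank_eq
    rw [finrank_prod, finrank_self] at h3
    omega

/-- Blow-ups. -/
lemma good_blowUp {X X' : Fourfold} (e : BlowUp X X') (h : Good X) : Good X' := by
  obtain ⟨V, _, _, ψ, hV, hψ, hf⟩ := h
  have := X.finN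
  let q : e.B →ₗ[ℚ] ℚ := (e.biadd_form.2 e.h).lin
  refine ⟨V × ℚ, inferInstance, inferInstance, (ψ.prodMap q) ∘ₗ e.add_eA.lin, inferInstance,
    ?_, ?_⟩
  · intro x hx hx0
    have h1 : ψ (e.eA x).1 = 0 := congrArg Prod.fst hx
    have h2 : e.form (e.eA x).2 e.h = 0 := congrArg Prod.snd hx
    rw [e.deg]
    by_cases h3 : (e.eA x).1 = 0
    · have h4 : (e.eA x).2 ≠ 0 := by
        intro h4
        apply hx0
        apply e.bij_eA.1
        rw [e.add_eA.map_zero]
        exact Prod.ext h3 h4
      rw [h3, deg_zeroL, zero_add]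
      exact e.pos _ h4 h2
    · have h5 := hψ _ h1 h3
      by_cases h4 : (e.eA x).2 = 0
      · rw [h4, (e.biadd_form.1 0).map_zero, add_zero]
        exact h5
      · have h6 := e.pos _ h4 h2
        linarith
  · have h3 := (e.add_eN.equiv e.bij_eN).finrank_eq
    rw [finrank_prod, finrank_self] at h3
    rw [finrank_prod, finrank_self]
    omega

/-- Lorentzian forms. -/
lemma neg_of_orth {X : Fourfold} {H M E : X.N} (hH : H ∈ X.ample) (hM : M ∈ X.big)
    (hE : X.mul M E = 0) (hE0 : E ≠ 0) : X.deg (X.mul H H) (X.mul E E) < 0 := by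
  by_contra hn
  rw [not_lt] at hn
  have hMM := X.pos H (X.ample_sub hH) M hM
  have hHE : X.deg (X.mul H H) (X.mul H E) ≠ 0 := by
    intro h0
    have := X.strict H hH E hE0 h0
    linarith
  let s := X.deg (X.mul H H) (X.mul H M) / X.deg (X.mul H H) (X.mul H E)
  have hs : X.deg (X.mul H H) (X.mul H M) = s * X.deg (X.mul H H) (X.mul H E) := by
    rw [div_mul_cancel₀ _ hHE]
  have h1 : X.deg (X.mul H H) (X.mul H (M + (-s) • E)) = 0 := by
    rw [mul_addR, mul_smulR, addR, smulR, hs]
    ring
  have h2 : X.deg (X.mul H H) (X.mul (M + (-s) • E) (M + (-s) • E)) ≤ 0 := by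
    by_cases h0 : M + (-s) • E = 0
    · rw [h0, (X.biadd_mul.1 0).map_zero, (X.biadd_deg.1 _).map_zero]
    · exact (X.strict H hH _ h0 h1).le
  have h3 : X.mul (M + (-s) • E) (M + (-s) • E) = X.mul M M + (s ^ 2) • X.mul E E := by
    rw [mul_addR, mul_addL, mul_smulR, mul_addL, mul_smulL, mul_smulL, X.mul_comm E M, hE]
    simp only [smul_zero, add_zero, zero_add, smul_smul]
    congr 2
    ring
  rw [h3, addR, smulR] at h2
  have := sq_nonneg s
  nlinarith [mul_nonneg this hn]

/-- The main step. -/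
lemma hodge_of_dominates {X X' : Fourfold} (f : Dominates X X') (h : Good X) {L : X'.N}
    (hL : L ∈ X'.ample) : X'.Hodge L := by
  intro x hx hprim
  by_contra hn
  rw [not_lt] at hn
  obtain ⟨V, _, _, ψ, hV, hψ, hf⟩ := h
  have := X.finN
  obtain ⟨H, hH⟩ := X.nonempty
  let M := f.pullN L
  have hM : M ∈ X.big := f.big L hL
  let y := f.pullA x
  let U := LinearMap.ker (func X M)
  let K := LinearMap.ker (X.biadd_mul.1 M).lin
  have hUf : finrank ℚ X.N ≤ finrank ℚ U + 1 := finrank_ker_func X M
  let Φ : (U × K) × ℚ →ₗ[ℚ] X.A :=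
    LinearMap.coprod (LinearMap.coprod ((X.biadd_mul.1 M).lin ∘ₗ U.subtype)
      ((X.biadd_mul.1 H).lin ∘ₗ K.subtype)) (LinearMap.toSpanSingleton ℚ X.A y)
  have hΦ : ∀ D E c, Φ ((D, E), c) = X.mul M D + X.mul H E + c • y := by
    intro D E c
    simp only [Φ, LinearMap.coprod_apply, LinearMap.toSpanSingleton_apply,
      LinearMap.comp_apply, IsAdd.lin_apply, Submodule.subtype_apply]
  let K' : Submodule ℚ ((U × K) × ℚ) :=
    LinearMap.ker Φ ⊓ LinearMap.ker ((LinearMap.snd ℚ U K ∘ₗ LinearMap.fst ℚ (U × K) ℚ).prod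
      (LinearMap.snd ℚ (U × K) ℚ))
  have hK' : finrank ℚ K' ≤ finrank ℚ K := by
    let p : K' →ₗ[ℚ] K :=
      { toFun := fun z => ⟨(z.1.1.1 : X.N), by
          have h1 : Φ z.1 = 0 := z.2.1
          have h2 : (z.1.1.2, z.1.2) = 0 := z.2.2
          have h3 : z.1.1.2 = 0 := congrArg Prod.fst h2
          have h4 : z.1.2 = 0 := congrArg Prod.snd h2
          have h5 : z.1 = ((z.1.1.1, 0), 0) := by
            rw [← h3, ← h4]
          rw [h5, hΦ] at h1
          rw [LinearMap.mem_ker, IsAdd.lin_apply]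
          rw [zero_smul, add_zero] at h1
          rw [← h1]
          have h6 : X.mul H ((0 : K) : X.N) = 0 := (X.biadd_mul.1 H).map_zero
          rw [h6, add_zero]⟩
        map_add' := fun _ _ => rfl
        map_smul' := fun _ _ => rfl }
    apply LinearMap.finrank_le_finrank_of_injective (f := p)
    rw [injective_iff_map_eq_zero]
    rintro ⟨⟨⟨D, E⟩, c⟩, hz1, hz2⟩ hz
    have h2 : (E, c) = (0 : K × ℚ) := hz2
    have h3 : E = 0 := congrArg Prod.fst h2
    have h4 : c = 0 := congrArg Prod.snd h2
    have h5 : (D : X.N) = 0 := congrArg Subtype.val hz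
    have h6 : D = 0 := Subtype.ext h5
    apply Subtype.ext
    change ((D, E), c) = 0
    rw [h3, h4, h6]
    rfl
  have hlt : finrank ℚ K' < finrank ℚ (LinearMap.ker (ψ ∘ₗ Φ)) := by
    have h1 := LinearMap.finrank_range_add_finrank_ker (ψ ∘ₗ Φ)
    have h2 : finrank ℚ (LinearMap.range (ψ ∘ₗ Φ)) ≤ finrank ℚ V := Submodule.finrank_le _
    rw [finrank_prod, finrank_prod, finrank_self] at h1
    omega
  obtain ⟨z, hz1, hz2⟩ : ∃ z ∈ LinearMap.ker (ψ ∘ₗ Φ), z ∉ K' := by
    by_contra hcon
    push Not at hcon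
    have : LinearMap.ker (ψ ∘ₗ Φ) ≤ K' := fun z hz => hcon z hz
    have := Submodule.finrank_mono this
    omega
  obtain ⟨⟨D, E⟩, c⟩ := z
  have hD : X.deg (X.mul M M) (X.mul M D) = 0 := D.2
  have hE : X.mul M E = 0 := E.2
  have hpair : ∀ F, X.deg (X.mul M F) y = 0 := by
    intro F
    rw [X.deg_comm, f.proj, f.push_mul]
    exact hprim _
  have hEy : X.deg (X.mul H E) y = 0 := by
    rw [X.mul_comm]
    exact f.contract L hL E hE H x
  have hDE : X.deg (X.mul M D) (X.mul H E) = 0 := by
    rw [X.mul_comm H E, X.deg_mul, hE, deg_zeroL]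
  have hyy : X.deg y y = f.degree * X'.deg x x := by
    rw [f.proj, f.push_pull, smulR]
  have hyy' : X.deg y y ≤ 0 := by
    rw [hyy]
    exact mul_nonpos_of_nonneg_of_nonpos f.degree_pos.le hn
  have t1 : X.deg (X.mul M D) (X.mul M D) ≤ 0 := by
    rw [X.deg_mul M D M D]
    exact X.index M hM D hD
  have t2 : X.deg (X.mul H E) (X.mul H E) = X.deg (X.mul H H) (X.mul E E) := X.deg_mul H E H E
  have t2' : X.deg (X.mul H E) (X.mul H E) ≤ 0 := by
    rw [t2]
    by_cases hE0 : (E : X.N) = 0
    · rw [hE0, (X.biadd_mul.1 0).map_zero, (X.biadd_deg.1 _).map_zero]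
    · exact (neg_of_orth hH hM hE hE0).le
  have t3 : c ^ 2 * X.deg y y ≤ 0 := mul_nonpos_of_nonneg_of_nonpos (sq_nonneg c) hyy'
  have hval : X.deg (Φ ((D, E), c)) (Φ ((D, E), c)) = X.deg (X.mul M D) (X.mul M D)
      + X.deg (X.mul H E) (X.mul H E) + c ^ 2 * X.deg y y := by
    rw [hΦ]
    have a1 := hpair D
    have a2 : X.deg y (X.mul M D) = 0 := by rw [X.deg_comm, a1]
    have a3 : X.deg y (X.mul H E) = 0 := by rw [X.deg_comm, hEy]
    have a4 : X.deg (X.mul H E) (X.mul M D) = 0 := by rw [X.deg_comm, hDE]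
    simp only [addL, addR, smulL, smulR, a1, a2, a3, a4, hEy, hDE]
    ring
  have hg0 : Φ ((D, E), c) = 0 := by
    by_contra hne
    have := hψ _ hz1 hne
    linarith
  rw [hg0, deg_zeroL] at hval
  have hE0 : (E : X.N) = 0 := by
    by_contra hE0
    have := neg_of_orth hH hM hE hE0
    linarith
  have hE1 : E = 0 := Subtype.ext hE0
  have hc : c ≠ 0 := by
    intro hc
    apply hz2
    refine ⟨LinearMap.mem_ker.2 hg0, ?_⟩
    change (E, c) = 0
    rw [hE1, hc]
    rfl
  rw [hΦ, hE0, (X.biadd_mul.1 H).map_zero, add_zero] at hg0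
  have hy : y = (-c⁻¹) • X.mul M D := by
    have h1 : c • y = -(X.mul M D) := by
      rw [eq_neg_iff_add_eq_zero, add_comm]
      exact hg0
    have h2 : y = c⁻¹ • (c • y) := by
      rw [smul_smul, inv_mul_cancel₀ hc, one_smul]
    rw [h2, h1, smul_neg, neg_smul]
  have hpush : f.degree • x = X'.mul L ((-c⁻¹) • f.pushN D) := by
    rw [← f.push_pull]
    change f.pushA y = _
    rw [hy, f.add_pushA.map_smul, f.push_mul, mul_smulR]
  let F := f.degree⁻¹ • ((-c⁻¹) • f.pushN D)
  have hxF : x = X'.mul L F := by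
    rw [mul_smulR, ← hpush, smul_smul, inv_mul_cancel₀ f.degree_pos.ne', one_smul]
  have hF0 : F ≠ 0 := by
    intro h0
    apply hx
    rw [hxF, h0, (X'.biadd_mul.1 L).map_zero]
  have h1 : X'.deg (X'.mul L L) (X'.mul L F) = 0 := by
    rw [X'.deg_comm, ← hxF]
    exact hprim L
  have h2 := X'.strict L hL F hF0 h1
  have h3 := hprim F
  rw [hxF, X'.deg_mul L F L F] at h3
  linarith

lemma good_of_generated {X : Fourfold} (h : Generated X) : Good X := by
  induction h with
  | known X L hL h => exact good_known hL h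
  | bundle X e => exact good_bundle e
  | blowUp X X' e _ ih => exact good_blowUp e ih
  | image X X' f _ ih =>
    obtain ⟨L, hL⟩ := X'.nonempty
    exact good_known hL (hodge_of_dominates f ih hL)

lemma eq_zero_of_mul {X : Fourfold} {L D : X.N} (hL : L ∈ X.ample) (h : X.mul L D = 0) :
    D = 0 := by
  by_contra h0
  have h1 : X.deg (X.mul L L) (X.mul L D) = 0 := by
    rw [h, (X.biadd_deg.1 _).map_zero]
  have h2 := X.strict L hL D h0 h1
  rw [X.deg_mul, h, deg_zeroL] at h2
  exact lt_irrefl _ h2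

/-- The identity. -/
def idDom (X : Fourfold) : Dominates X X where
  pullN := id
  pullA := id
  pushN := id
  pushA := id
  degree := 1
  degree_pos := one_pos
  add_pushA := fun _ _ => rfl
  push_pull := fun x => (one_smul ℚ x).symm
  proj := fun _ _ => rfl
  push_mul := fun _ _ => rfl
  big := fun _ hL => X.ample_sub hL
  contract := by
    intro L hL D hD E x
    rw [eq_zero_of_mul hL hD, (X.biadd_mul.2 E).map_zero, deg_zeroL]

lemma hodge_of_generated {X : Fourfold} (h : Generated X) {L : X.N} (hL : L ∈ X.ample) :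
    X.Hodge L :=
  hodge_of_dominates (idDom X) (good_of_generated h) hL

end Pool.Agent.Y150.UF
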